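import Mathlib

/-!
# MP_705522_gt, packet STIR, part A: the rational functions
-/

set_option autoImplicit false

namespace Pool.Agent.Helper74.PT

open Filter Topology Set

/-- polynomial part of the Stirling series -/
noncomputable def Pp (z : ℝ) : ℝ :=
  1 / 12 * z⁻¹ - 1 / 360 * z⁻¹ ^ 3 + 1 / 1260 * z⁻¹ ^ 5 - 1 / 1680 * z⁻¹ ^ 7 + 1 / 1188 * z⁻¹ ^ 9 -
    691 / 360360 * z⁻¹ ^ 11 + 1 / 156 * z⁻¹ ^ 13 - 3617 / 122400 * z⁻¹ ^ 15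

/-- first derivative -/
noncomputable def L1 (z : ℝ) : ℝ :=
  Real.log z - 1 / 2 * z⁻¹ - 1 / 12 * z⁻¹ ^ 2 + 1 / 120 * z⁻¹ ^ 4 - 1 / 252 * z⁻¹ ^ 6 +
    1 / 240 * z⁻¹ ^ 8 - 1 / 132 * z⁻¹ ^ 10 + 691 / 32760 * z⁻¹ ^ 12 - 1 / 12 * z⁻¹ ^ 14 +
    3617 / 8160 * z⁻¹ ^ 16

/-- second derivative -/
noncomputable def L2 (z : ℝ) : ℝ :=
  z⁻¹ + 1 / 2 * z⁻¹ ^ 2 + 1 / 6 * z⁻¹ ^ 3 - 1 / 30 * z⁻¹ ^ 5 + 1 / 42 * z⁻¹ ^ 7 - 1 / 30 * z⁻¹ ^ 9 +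
    5 / 66 * z⁻¹ ^ 11 - 691 / 2730 * z⁻¹ ^ 13 + 7 / 6 * z⁻¹ ^ 15 - 3617 / 510 * z⁻¹ ^ 17

noncomputable def MM (z : ℝ) : ℝ :=
  3617/510 * z ^ 0 + 3617/30 * z ^ 1 + 28901/30 * z ^ 2 + 28817/6 * z ^ 3 + 15216037/910 * z ^ 4 +
  7843697/182 * z ^ 5 + 2553457337/30030 * z ^ 6 + 3930319273/30030 * z ^ 7 +
  680238733/4290 * z ^ 8 + 3327199/22 * z ^ 9 + 51985783/462 * z ^ 10 + 147578723/2310 * z ^ 11 +
  20396281/770 * z ^ 12 + 43867/6 * z ^ 13 + 43867/42 * z ^ 14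

noncomputable def QQ (z : ℝ) : ℝ :=
  306 * z ^ 0 + 5814 * z ^ 1 + 26682643/510 * z ^ 2 + 151153417/510 * z ^ 3 +
  302135324/255 * z ^ 4 + 53269768/15 * z ^ 5 + 11295514294/1365 * z ^ 6 +
  20935532014/1365 * z ^ 7 + 344446298096/15015 * z ^ 8 + 419273313044/15015 * z ^ 9 +
  416851151513/15015 * z ^ 10 + 22551377153/1001 * z ^ 11 + 74300066924/5005 * z ^ 12 +
  432422216/55 * z ^ 13 + 1267182146/385 * z ^ 14 + 408824026/385 * z ^ 15 +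
  97928037/385 * z ^ 16 + 600963/14 * z ^ 17 + 200321/42 * z ^ 18

theorem MM_nonneg {z : ℝ} (hz : 0 < z) : 0 ≤ MM z := by
  unfold MM
  positivity

theorem QQ_nonneg {z : ℝ} (hz : 0 < z) : 0 ≤ QQ z := by
  unfold QQ
  positivity

theorem QQ_eq (z : ℝ) : 306 * ((z + 1) ^ 19 - z ^ 19) - MM z * (z ^ 2 * (z + 1) ^ 2) = QQ z := by
  unfold MM QQ
  ring

/-- `L2 z * z^17` -/
noncomputable def l2 (z : ℝ) : ℝ :=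
  z ^ 16 + 1 / 2 * z ^ 15 + 1 / 6 * z ^ 14 - 1 / 30 * z ^ 12 + 1 / 42 * z ^ 10 - 1 / 30 * z ^ 8 +
    5 / 66 * z ^ 6 - 691 / 2730 * z ^ 4 + 7 / 6 * z ^ 2 - 3617 / 510

theorem L2_eq {z : ℝ} (hz : 0 < z) : L2 z = l2 z / z ^ 17 := by
  unfold L2 l2
  field_simp
  try ring

theorem poly_id (z : ℝ) : -(z ^ 15 * (z + 1) ^ 17) - z ^ 17 * l2 (z + 1) + l2 z * (z + 1) ^ 17 = - MM z := by
  unfold MM l2
  ring

/-- second derivative of the error -/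
theorem e2_eq {z : ℝ} (hz : 0 < z) :
    -z⁻¹ ^ 2 - L2 (z + 1) + L2 z = - (MM z / (z ^ 17 * (z + 1) ^ 17)) := by
  have h1 : 0 < z + 1 := by linarith
  rw [L2_eq hz, L2_eq h1]
  have h2 := poly_id z
  have h3 : -z⁻¹ ^ 2 - l2 (z + 1) / (z + 1) ^ 17 + l2 z / z ^ 17 =
      (-(z ^ 15 * (z + 1) ^ 17) - z ^ 17 * l2 (z + 1) + l2 z * (z + 1) ^ 17) /
        (z ^ 17 * (z + 1) ^ 17) := by
    field_simp
    try ring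
  rw [h3, h2, neg_div]

theorem e2_lower {z : ℝ} (hz : 0 < z) :
    0 ≤ 306 * z⁻¹ ^ 19 - 306 * (z + 1)⁻¹ ^ 19 + (-z⁻¹ ^ 2 - L2 (z + 1) + L2 z) := by
  have h1 : 0 < z + 1 := by linarith
  rw [e2_eq hz]
  have h2 := QQ_eq z
  have h3 : 306 * z⁻¹ ^ 19 - 306 * (z + 1)⁻¹ ^ 19 + - (MM z / (z ^ 17 * (z + 1) ^ 17)) =
      (306 * ((z + 1) ^ 19 - z ^ 19) - MM z * (z ^ 2 * (z + 1) ^ 2)) / (z ^ 19 * (z + 1) ^ 19) := by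
    field_simp
    try ring
  rw [h3, h2]
  have := QQ_nonneg hz
  positivity

theorem e2_upper {z : ℝ} (hz : 0 < z) : 0 ≤ -(-z⁻¹ ^ 2 - L2 (z + 1) + L2 z) := by
  have h1 : 0 < z + 1 := by linarith
  rw [e2_eq hz]
  have := MM_nonneg hz
  rw [neg_neg]
  positivity

end Pool.Agent.Helper74.PT
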