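import Pool.Agent.Helper53.PT.GoalsA
import Pool.Agent.Helper74.PT.STIRa

/-!
# MP_705522_gt, packet STIR: Stirling series with explicit error for differences of `log Γ`
-/

set_option autoImplicit false

namespace Pool.Agent.Helper74.PT

open Filter Topology Set
open Pool.Agent.Helper53.PT (Lam GSTIR)

theorem Lam_eq (z : ℝ) : Lam z = (z - 1 / 2) * Real.log z - z + Pp z := by
  unfold Lam Pp
  ring

theorem hd_inv (k : ℕ) {z : ℝ} (hz : z ≠ 0) :
    HasDerivAt (fun z : ℝ => z⁻¹ ^ (k + 1)) (-((k : ℝ) + 1) * z⁻¹ ^ (k + 2)) z := by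
  have h := (hasDerivAt_inv hz).pow (k + 1)
  refine h.congr_deriv ?_
  simp only [Nat.add_sub_cancel]
  push_cast
  rw [← inv_pow, pow_add z⁻¹ k 2]
  ring

theorem hd_Pp {z : ℝ} (hz : z ≠ 0) : HasDerivAt Pp (-(1 / 12) * z⁻¹ ^ 2 + 1 / 120 * z⁻¹ ^ 4 -
    1 / 252 * z⁻¹ ^ 6 + 1 / 240 * z⁻¹ ^ 8 - 1 / 132 * z⁻¹ ^ 10 + 691 / 32760 * z⁻¹ ^ 12 -
    1 / 12 * z⁻¹ ^ 14 + 3617 / 8160 * z⁻¹ ^ 16) z := by
  have h1 := (hd_inv 0 hz).const_mul (1 / 12 : ℝ)
  have h3 := (hd_inv 2 hz).const_mul (1 / 360 : ℝ)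
  have h5 := (hd_inv 4 hz).const_mul (1 / 1260 : ℝ)
  have h7 := (hd_inv 6 hz).const_mul (1 / 1680 : ℝ)
  have h9 := (hd_inv 8 hz).const_mul (1 / 1188 : ℝ)
  have h11 := (hd_inv 10 hz).const_mul (691 / 360360 : ℝ)
  have h13 := (hd_inv 12 hz).const_mul (1 / 156 : ℝ)
  have h15 := (hd_inv 14 hz).const_mul (3617 / 122400 : ℝ)
  have h := (((((((h1.sub h3).add h5).sub h7).add h9).sub h11).add h13).sub h15)
  refine (h.congr_of_eventuallyEq ?_).congr_deriv ?_
  · refine Eventually.of_forall fun y => ?_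
    simp only [Pp, Pi.add_apply, Pi.sub_apply]
    ring
  · push_cast
    ring

theorem hd_Lam {z : ℝ} (hz : z ≠ 0) : HasDerivAt Lam (L1 z) z := by
  have h1 : HasDerivAt (fun z : ℝ => (z - 1 / 2) * Real.log z) (1 * Real.log z + (z - 1 / 2) * z⁻¹) z :=
    ((hasDerivAt_id z).sub_const (1 / 2)).mul (Real.hasDerivAt_log hz)
  have h2 := (h1.sub (hasDerivAt_id z)).add (hd_Pp hz)
  refine (h2.congr_of_eventuallyEq ?_).congr_deriv ?_
  · refine Eventually.of_forall fun y => ?_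
    rw [Lam_eq]
    rfl
  · unfold L1
    have : z * z⁻¹ = 1 := mul_inv_cancel₀ hz
    linear_combination this

theorem hd_L1 {z : ℝ} (hz : z ≠ 0) : HasDerivAt L1 (L2 z) z := by
  have h0 := Real.hasDerivAt_log hz
  have h1 := (hd_inv 0 hz).const_mul (1 / 2 : ℝ)
  have h2 := (hd_inv 1 hz).const_mul (1 / 12 : ℝ)
  have h4 := (hd_inv 3 hz).const_mul (1 / 120 : ℝ)
  have h6 := (hd_inv 5 hz).const_mul (1 / 252 : ℝ)
  have h8 := (hd_inv 7 hz).const_mul (1 / 240 : ℝ)
  have h10 := (hd_inv 9 hz).const_mul (1 / 132 : ℝ)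
  have h12 := (hd_inv 11 hz).const_mul (691 / 32760 : ℝ)
  have h14 := (hd_inv 13 hz).const_mul (1 / 12 : ℝ)
  have h16 := (hd_inv 15 hz).const_mul (3617 / 8160 : ℝ)
  have h := (((((((((h0.sub h1).sub h2).add h4).sub h6).add h8).sub h10).add h12).sub h14).add h16)
  refine (h.congr_of_eventuallyEq ?_).congr_deriv ?_
  · refine Eventually.of_forall fun y => ?_
    simp only [L1, Pi.add_apply, Pi.sub_apply]
    ring
  · unfold L2
    push_cast
    ring

/-- the error of the functional equation -/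
noncomputable def ee (z : ℝ) : ℝ := Real.log z - Lam (z + 1) + Lam z

noncomputable def e1 (z : ℝ) : ℝ := z⁻¹ - L1 (z + 1) + L1 z

noncomputable def e2 (z : ℝ) : ℝ := -z⁻¹ ^ 2 - L2 (z + 1) + L2 z

theorem hd_shift {f : ℝ → ℝ} {f' z : ℝ} (h : HasDerivAt f f' (z + 1)) :
    HasDerivAt (fun z => f (z + 1)) f' z := by
  exact h.comp_add_const z 1

theorem hd_ee {z : ℝ} (hz : 0 < z) : HasDerivAt ee (e1 z) z := by
  have h1 : z + 1 ≠ 0 := by positivity
  exact ((Real.hasDerivAt_log hz.ne').sub (hd_shift (hd_Lam h1))).add (hd_Lam hz.ne')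

theorem hd_e1 {z : ℝ} (hz : 0 < z) : HasDerivAt e1 (e2 z) z := by
  have h1 : z + 1 ≠ 0 := by positivity
  have h2 := ((hasDerivAt_inv hz.ne').sub (hd_shift (hd_L1 h1))).add (hd_L1 hz.ne')
  refine h2.congr_deriv ?_
  unfold e2
  rw [inv_pow]

/-- a convex function which tends to `0` at infinity is nonnegative -/
theorem nonneg_of_convex {f : ℝ → ℝ} {a : ℝ} (hf : ConvexOn ℝ (Ioi a) f)
    (hl : Tendsto f atTop (𝓝 0)) : ∀ x, a < x → 0 ≤ f x := by
  intro x hx
  by_contra hneg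
  push Not at hneg
  have h1 : ∀ᶠ y in atTop, f x / 2 < f y := hl.eventually_const_lt (by linarith)
  have h2 : ∀ᶠ y in atTop, f y < 1 := hl.eventually_lt_const (by norm_num)
  obtain ⟨y, hy1, hy2⟩ := (h1.and (eventually_gt_atTop x)).exists
  have hs : 0 < (f y - f x) / (y - x) := div_pos (by linarith) (by linarith)
  set s := (f y - f x) / (y - x) with hsdef
  obtain ⟨z, hz1, hz2, hz3⟩ := (h2.and ((eventually_gt_atTop y).and
    (eventually_gt_atTop (y + (1 - f y) / s)))).exists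
  have h3 := hf.slope_mono_adjacent (mem_Ioi.mpr hx) (mem_Ioi.mpr (hx.trans (hy2.trans hz2))) hy2 hz2
  rw [← hsdef, le_div_iff₀ (by linarith)] at h3
  have h4 : 1 - f y < s * (z - y) := by
    have h5 : (1 - f y) / s < z - y := by linarith
    rw [div_lt_iff₀ hs] at h5
    linarith
  linarith

theorem tends_inv_pow (k : ℕ) : Tendsto (fun z : ℝ => z⁻¹ ^ (k + 1)) atTop (𝓝 0) := by
  have h := (tendsto_inv_atTop_zero (𝕜 := ℝ)).pow (k + 1)
  simpa using h

theorem tends_Pp : Tendsto Pp atTop (𝓝 0) := by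
  have h1 := (tends_inv_pow 0).const_mul (1 / 12 : ℝ)
  have h3 := (tends_inv_pow 2).const_mul (1 / 360 : ℝ)
  have h5 := (tends_inv_pow 4).const_mul (1 / 1260 : ℝ)
  have h7 := (tends_inv_pow 6).const_mul (1 / 1680 : ℝ)
  have h9 := (tends_inv_pow 8).const_mul (1 / 1188 : ℝ)
  have h11 := (tends_inv_pow 10).const_mul (691 / 360360 : ℝ)
  have h13 := (tends_inv_pow 12).const_mul (1 / 156 : ℝ)
  have h15 := (tends_inv_pow 14).const_mul (3617 / 122400 : ℝ)
  have h := (((((((h1.sub h3).add h5).sub h7).add h9).sub h11).add h13).sub h15)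
  simp only [mul_zero, sub_zero, add_zero] at h
  refine h.congr fun z => ?_
  simp only [Pp]
  ring

theorem tends_add_one : Tendsto (fun z : ℝ => z + 1) atTop atTop :=
  tendsto_atTop_add_const_right _ _ tendsto_id

theorem tends_ee : Tendsto ee atTop (𝓝 0) := by
  have h1 := Real.tendsto_mul_log_one_add_div_atTop 1
  have h2 : Tendsto (fun z : ℝ => Real.log (1 + 1 / z)) atTop (𝓝 0) := by
    have h3 : Tendsto (fun z : ℝ => 1 + 1 / z) atTop (𝓝 1) := by
      have := (tendsto_inv_atTop_zero (𝕜 := ℝ)).const_add 1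
      simpa using this
    have h4 := h3.log one_ne_zero
    simpa using h4
  have h5 := ((tendsto_const_nhds (x := (1 : ℝ))).sub (h1.add (h2.const_mul (1 / 2)))).add
    (tends_Pp.sub (tends_Pp.comp tends_add_one))
  simp only [mul_zero, add_zero, sub_self] at h5
  refine h5.congr' ?_
  filter_upwards [eventually_gt_atTop 0] with z hz
  have h6 : Real.log (1 + 1 / z) = Real.log (z + 1) - Real.log z := by
    rw [← Real.log_div (by positivity) hz.ne']
    congr 1
    field_simp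
  simp only [ee, Lam_eq, Function.comp_apply, h6]
  ring

theorem ee_nonpos {z : ℝ} (hz : 0 < z) : ee z ≤ 0 := by
  have hc : ConvexOn ℝ (Ioi 0) (fun z => -ee z) := by
    refine convexOn_of_hasDerivWithinAt2_nonneg (convex_Ioi 0) (f' := fun z => -e1 z)
      (f'' := fun z => -e2 z) ?_ ?_ ?_ ?_
    · exact fun x hx => (hd_ee hx).neg.continuousAt.continuousWithinAt
    · intro x hx
      rw [interior_Ioi] at hx
      exact (hd_ee hx).neg.hasDerivWithinAt
    · intro x hx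
      rw [interior_Ioi] at hx
      exact (hd_e1 hx).neg.hasDerivWithinAt
    · intro x hx
      rw [interior_Ioi] at hx
      exact e2_upper hx
  have h := nonneg_of_convex hc (by simpa using tends_ee.neg) z hz
  linarith

theorem ee_lower {z : ℝ} (hz : 0 < z) : -(z⁻¹ ^ 17 - (z + 1)⁻¹ ^ 17) ≤ ee z := by
  have hd0 : ∀ z : ℝ, 0 < z → HasDerivAt (fun z : ℝ => z⁻¹ ^ 17 - (z + 1)⁻¹ ^ 17 + ee z)
      (-17 * z⁻¹ ^ 18 - -17 * (z + 1)⁻¹ ^ 18 + e1 z) z := by
    intro z hz
    have h1 : z + 1 ≠ 0 := by positivity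
    have h2 := ((hd_inv 16 hz.ne').sub (hd_shift (hd_inv 16 h1))).add (hd_ee hz)
    refine h2.congr_deriv ?_
    norm_num
  have hd1 : ∀ z : ℝ, 0 < z → HasDerivAt (fun z : ℝ => -17 * z⁻¹ ^ 18 - -17 * (z + 1)⁻¹ ^ 18 + e1 z)
      (306 * z⁻¹ ^ 19 - 306 * (z + 1)⁻¹ ^ 19 + e2 z) z := by
    intro z hz
    have h1 : z + 1 ≠ 0 := by positivity
    have h2 := (((hd_inv 17 hz.ne').const_mul (-17)).sub
      ((hd_shift (hd_inv 17 h1)).const_mul (-17))).add (hd_e1 hz)
    refine h2.congr_deriv ?_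
    push_cast
    ring
  have hc : ConvexOn ℝ (Ioi 0) (fun z : ℝ => z⁻¹ ^ 17 - (z + 1)⁻¹ ^ 17 + ee z) := by
    refine convexOn_of_hasDerivWithinAt2_nonneg (convex_Ioi 0) ?_
      (fun x hx => ?_) (fun x hx => ?_) (fun x hx => ?_)
      (f' := fun z : ℝ => -17 * z⁻¹ ^ 18 - -17 * (z + 1)⁻¹ ^ 18 + e1 z)
      (f'' := fun z : ℝ => 306 * z⁻¹ ^ 19 - 306 * (z + 1)⁻¹ ^ 19 + e2 z)
    · exact fun x hx => (hd0 x hx).continuousAt.continuousWithinAt
    · rw [interior_Ioi] at hx
      exact (hd0 x hx).hasDerivWithinAt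
    · rw [interior_Ioi] at hx
      exact (hd1 x hx).hasDerivWithinAt
    · rw [interior_Ioi] at hx
      exact e2_lower hx
  have hl : Tendsto (fun z : ℝ => z⁻¹ ^ 17 - (z + 1)⁻¹ ^ 17 + ee z) atTop (𝓝 0) := by
    have h1 := ((tends_inv_pow 16).sub ((tends_inv_pow 16).comp tends_add_one)).add tends_ee
    simp only [sub_self, add_zero] at h1
    exact h1
  have h : 0 ≤ z⁻¹ ^ 17 - (z + 1)⁻¹ ^ 17 + ee z := nonneg_of_convex hc hl z hz
  linarith

/-- `log Γ - Λ` -/
noncomputable def gD (z : ℝ) : ℝ := Real.log (Real.Gamma z) - Lam z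

theorem gD_add_one {z : ℝ} (hz : 0 < z) : gD (z + 1) = gD z + ee z := by
  unfold gD ee
  rw [Real.Gamma_add_one hz.ne', Real.log_mul hz.ne' (Real.Gamma_pos_of_pos hz).ne']
  ring

theorem gD_bounds {z : ℝ} (hz : 0 < z) (n : ℕ) :
    gD (z + n) ≤ gD z ∧ gD z - z⁻¹ ^ 17 ≤ gD (z + n) - (z + n)⁻¹ ^ 17 := by
  induction n with
  | zero => simp
  | succ n ih =>
    have h0 : 0 < z + n := by positivity
    have h1 : z + ((n + 1 : ℕ) : ℝ) = (z + n) + 1 := by push_cast; ring
    rw [h1, gD_add_one h0]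
    have h2 := ee_nonpos h0
    have h3 := ee_lower h0
    constructor
    · linarith [ih.1]
    · linarith [ih.2]

/-- asymptotics of `log Γ` -/
theorem tends_gD {z : ℝ} (hz : 0 < z) :
    Tendsto (fun n : ℕ => gD (z + ((n + 1 : ℕ) : ℝ)) -
      (Real.log (n.factorial : ℝ) - ((n : ℝ) + 1 / 2) * Real.log n + n)) atTop (𝓝 0) := by
  have hT : Tendsto (fun n : ℕ => Real.log (Real.Gamma (z + ((n + 1 : ℕ) : ℝ))) - z * Real.log n -
      Real.log (n.factorial : ℝ)) atTop (𝓝 0) := by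
    have h1 := Real.BohrMollerup.tendsto_log_gamma hz
    have h2 := h1.const_sub (Real.log (Real.Gamma z))
    rw [sub_self] at h2
    refine h2.congr fun n => ?_
    have h3 := Real.BohrMollerup.f_add_nat_eq (f := Real.log ∘ Real.Gamma) (x := z)
      (fun {y} hy => by
        rw [Function.comp_apply, Real.Gamma_add_one hy.ne',
          Real.log_mul hy.ne' (Real.Gamma_pos_of_pos hy).ne', add_comm, Function.comp_apply]) hz (n + 1)
    simp only [Function.comp_apply] at h3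
    rw [h3]
    unfold Real.BohrMollerup.logGammaSeq
    ring
  have hS : Tendsto (fun n : ℕ => Lam (z + ((n + 1 : ℕ) : ℝ)) - z * Real.log n -
      ((n : ℝ) + 1 / 2) * Real.log n + n) atTop (𝓝 0) := by
    have hn : Tendsto (fun n : ℕ => (n : ℝ)) atTop atTop := tendsto_natCast_atTop_atTop
    have h1 := (Real.tendsto_mul_log_one_add_div_atTop (z + 1)).comp hn
    have h2 : Tendsto (fun x : ℝ => Real.log (1 + (z + 1) / x)) atTop (𝓝 0) := by
      have h3 : Tendsto (fun x : ℝ => 1 + (z + 1) / x) atTop (𝓝 1) := by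
        have := ((tendsto_inv_atTop_zero (𝕜 := ℝ)).const_mul (z + 1)).const_add 1
        simp only [mul_zero, add_zero] at this
        exact this
      have h4 := h3.log one_ne_zero
      simpa using h4
    have h5 := h2.comp hn
    have h6 : Tendsto (fun n : ℕ => z + ((n + 1 : ℕ) : ℝ)) atTop atTop := by
      refine tendsto_atTop_add_const_left _ _ ?_
      exact hn.comp (tendsto_add_atTop_nat 1)
    have h7 := tends_Pp.comp h6
    have h8 := ((h1.add (h5.const_mul (z + 1 / 2))).sub_const (z + 1)).add h7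
    simp only [mul_zero, add_zero, sub_self] at h8
    refine h8.congr' ?_
    filter_upwards [eventually_gt_atTop 0] with n hn0
    have hnpos : (0 : ℝ) < n := by exact_mod_cast hn0
    have h9 : Real.log (1 + (z + 1) / n) = Real.log (z + ((n + 1 : ℕ) : ℝ)) - Real.log n := by
      rw [← Real.log_div (by positivity) hnpos.ne']
      congr 1
      push_cast
      field_simp
      ring
    simp only [Function.comp_apply, Lam_eq, h9]
    push_cast
    ring
  have h := hT.sub hS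
  rw [sub_zero] at h
  refine h.congr fun n => ?_
  unfold gD
  ring

theorem gD_diff {z w : ℝ} (hz : 0 < z) (hw : 0 < w) : gD z - gD w ≤ z⁻¹ ^ 17 := by
  have h1 := (tends_gD hz).sub (tends_gD hw)
  rw [sub_zero] at h1
  have h2 : Tendsto (fun n : ℕ => gD (z + ((n + 1 : ℕ) : ℝ)) - gD (w + ((n + 1 : ℕ) : ℝ)) + z⁻¹ ^ 17)
      atTop (𝓝 (0 + z⁻¹ ^ 17)) := by
    refine Tendsto.add_const _ (h1.congr fun n => ?_)
    ring
  rw [zero_add] at h2
  refine ge_of_tendsto h2 (Eventually.of_forall fun n => ?_)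
  have h3 := (gD_bounds hz (n + 1)).2
  have h4 := (gD_bounds hw (n + 1)).1
  have h5 : 0 ≤ (z + ((n + 1 : ℕ) : ℝ))⁻¹ ^ 17 := by positivity
  linarith

theorem gSTIR : GSTIR := by
  intro z w hz hw
  have hz0 : 0 < z := by linarith
  have hw0 : 0 < w := by linarith
  have h1 := gD_diff hz0 hw0
  have h2 := gD_diff hw0 hz0
  have h3 : 0 ≤ z⁻¹ ^ 17 := by positivity
  have h4 : 0 ≤ w⁻¹ ^ 17 := by positivity
  unfold gD at h1 h2
  rw [abs_le]
  constructor <;> linarith

end Pool.Agent.Helper74.PT
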